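import Mathlib
import Pool.Agent.H9.Lib.R_seed8.TH461.SST.Gap

/-!
A gap below the index `m`, when there are no `m` independent lattice points in a larger body.
-/

set_option autoImplicit false

open Finset Filter Topology

namespace Pool.Agent.TH717.ST

open Pool.Agent.TH461.SST Pool.Agent.TH461.SST.Gap
open Pool.Agent.H393R2 Pool.Agent.H393R2.Geom

theorem li_of_det {n : ℕ} (G : Matrix (Fin n) (Fin n) ℤ) (hG : G.det ≠ 0) :
    LinearIndependent ℤ (fun i => G i) := by
  rw [Fintype.linearIndependent_iff]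
  intro a ha i
  have h1 : Matrix.vecMul a G = 0 := by
    funext j
    have := congrFun ha j
    simpa [Matrix.vecMul, dotProduct, Finset.sum_apply] using this
  exact congrFun (Matrix.eq_zero_of_vecMul_eq_zero hG h1) i

theorem gapT (n : ℕ) (hn : 2 ≤ n) : ∃ C : ℝ, 1 ≤ C ∧
    ∀ (m : ℕ) (_ : m ≤ n) (L Ls : Matrix (Fin n) (Fin n) ℝ) (_ : |L.det| = 1)
      (_ : Ls.transpose * L = 1)
      (x : Fin n → ℤ) (_ : x ≠ 0) (g : ℝ) (_ : 1 ≤ g) (κ0 : ℝ)
      (_ : ∀ l, |(L.mulVec (fun i => (x i : ℝ))) l| ≤ κ0)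
      (_ : ∀ z : Fin m → Fin n → ℤ, LinearIndependent ℤ z →
        ∃ i l, κ0 * g ^ n < |(L.mulVec (fun j => (z i j : ℝ))) l|),
      ∃ (r : ℕ) (_ : 1 ≤ r) (_ : r < m) (G : Matrix (Fin n) (Fin n) ℤ) (lam : Fin n → ℝ),
        G.det ≠ 0 ∧ (∀ i, 0 < lam i) ∧ (∀ i j, i ≤ j → lam i ≤ lam j) ∧
        (∀ i l, |(L.mulVec (fun j => (G i j : ℝ))) l| ≤ lam i) ∧ ∏ i, lam i ≤ C ∧
        (∀ i j : Fin n, (i : ℕ) < r → r ≤ (j : ℕ) → g * lam i ≤ lam j) ∧
        ∀ i : Fin n, r ≤ (i : ℕ) → (G.updateRow i x).det = 0 := by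
  classical
  have hn0 : 0 < n := by omega
  have hfac : (1 : ℝ) ≤ (n.factorial : ℝ) := by exact_mod_cast Nat.succ_le_of_lt n.factorial_pos
  have hK : (1 : ℝ) ≤ (2 * KK n) ^ n := one_le_pow₀ (by have := one_le_KK hn0; linarith)
  refine ⟨((n.factorial : ℝ) + 1) + (2 * KK n) ^ n, by linarith, ?_⟩
  intro m hm L Ls hL hLs x hx g hg κ0 hκ0 hV
  set C := ((n.factorial : ℝ) + 1) + (2 * KK n) ^ n with hC
  have hL0 : L.det ≠ 0 := by intro h; rw [h] at hL; simp at hL
  obtain ⟨G, hG, hmono, hmin⟩ := minima L Ls hLs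
  have hup := prod_upper L G hn0 hL hG hmono hmin
  have hlam := lam_pos L G hL0 hG
  set κ := ‖app L x‖ with hκ
  have hκpos : 0 < κ := norm_pos_iff.2 (app_ne L Ls hLs hx)
  have hκκ : κ ≤ κ0 := by
    have h0 : 0 ≤ κ0 := (abs_nonneg _).trans (hκ0 ⟨0, hn0⟩)
    rw [hκ, pi_norm_le_iff_of_nonneg h0]
    exact hκ0
  have hl0 : ‖app L (G ⟨0, hn0⟩)‖ ≤ κ := by
    obtain ⟨k, hk⟩ := exists_update_ne G hG hx
    exact hmin x k ⟨0, hn0⟩ (Fin.mk_le_of_le_val (Nat.zero_le _)) hk
  obtain ⟨i0, l0, hbig⟩ := hV (fun i => G (Fin.castLE hm i))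
    ((li_of_det G hG).comp _ (Fin.castLE_injective hm))
  have hm1 : 1 ≤ m := by
    have := i0.2
    omega
  have hlast : κ * g ^ n < ‖app L (G ⟨m - 1, by omega⟩)‖ := by
    have h1 : |(L.mulVec (fun j => (G (Fin.castLE hm i0) j : ℝ))) l0| ≤
        ‖app L (G (Fin.castLE hm i0))‖ := norm_le_pi_norm (app L (G (Fin.castLE hm i0))) l0
    have h2 : ‖app L (G (Fin.castLE hm i0))‖ ≤ ‖app L (G ⟨m - 1, by omega⟩)‖ := by
      apply hmono
      rw [Fin.le_def]
      have := i0.2
      simp only [Fin.val_castLE]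
      omega
    have h3 : κ * g ^ n ≤ κ0 * g ^ n := mul_le_mul_of_nonneg_right hκκ (by positivity)
    linarith
  have hm2 : 2 ≤ m := by
    by_contra hcon
    have h1 : m = 1 := by omega
    subst h1
    have h2 : (⟨1 - 1, by omega⟩ : Fin n) = ⟨0, hn0⟩ := rfl
    rw [h2] at hlast
    have h3 : κ ≤ κ * g ^ n := le_mul_of_one_le_right hκpos.le (one_le_pow₀ hg)
    linarith
  let P : ℕ → Prop := fun r => 1 ≤ r ∧ ∃ h : r < n, κ * g ^ r < ‖app L (G ⟨r, h⟩)‖
  have hPm : P (m - 1) := by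
    refine ⟨by omega, by omega, ?_⟩
    have h1 : g ^ (m - 1) ≤ g ^ n := pow_le_pow_right₀ hg (by omega)
    have h2 : κ * g ^ (m - 1) ≤ κ * g ^ n := mul_le_mul_of_nonneg_left h1 hκpos.le
    exact h2.trans_lt hlast
  have hPex : ∃ r, P r := ⟨_, hPm⟩
  set r := Nat.find hPex with hr
  have hrm : r ≤ m - 1 := Nat.find_min' hPex hPm
  obtain ⟨hr1, hrn, hrlt⟩ : P r := Nat.find_spec hPex
  have hprev : ‖app L (G ⟨r - 1, by omega⟩)‖ ≤ κ * g ^ (r - 1) := by
    rcases Nat.lt_or_ge 1 r with h | h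
    · have h1 := Nat.find_min hPex (m := r - 1) (by omega)
      by_contra hcon
      rw [not_le] at hcon
      exact h1 ⟨by omega, by omega, hcon⟩
    · have h1 : r = 1 := by omega
      have h2 : (⟨r - 1, by omega⟩ : Fin n) = ⟨0, hn0⟩ := by
        rw [Fin.mk.injEq]; omega
      have h3 : r - 1 = 0 := by omega
      rw [h2, h3, pow_zero, mul_one]
      exact hl0
  refine ⟨r, hr1, by omega, G, fun i => ‖app L (G i)‖, hG, hlam, hmono, ?_, ?_, ?_, ?_⟩
  · intro i l
    exact norm_le_pi_norm (app L (G i)) l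
  · refine hup.trans ?_
    linarith
  · intro i j hi hj
    have h1 : ‖app L (G i)‖ ≤ ‖app L (G ⟨r - 1, by omega⟩)‖ := hmono _ _ (by
      rw [Fin.le_def]; simp only; omega)
    have h2 : ‖app L (G ⟨r, hrn⟩)‖ ≤ ‖app L (G j)‖ := hmono _ _ (by
      rw [Fin.le_def]; exact hj)
    have h3 : g * (κ * g ^ (r - 1)) = κ * g ^ r := by
      have : g ^ r = g ^ (r - 1) * g := by
        rw [← pow_succ]; congr 1; omega
      rw [this]; ring
    calc g * ‖app L (G i)‖ ≤ g * (κ * g ^ (r - 1)) :=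
          mul_le_mul_of_nonneg_left (h1.trans hprev) (by linarith)
      _ = κ * g ^ r := h3
      _ ≤ ‖app L (G ⟨r, hrn⟩)‖ := hrlt.le
      _ ≤ ‖app L (G j)‖ := h2
  · intro i hi
    by_contra hcon
    have h1 := hmin x i ⟨r, hrn⟩ (by rw [Fin.le_def]; exact hi) hcon
    have h2 : κ ≤ κ * g ^ r := le_mul_of_one_le_right hκpos.le (one_le_pow₀ hg)
    linarith

/-- `m` independent vectors are not all in the span of `r < m` rows -/
theorem exists_out {n m r : ℕ} (hrm : r < m) (G : Matrix (Fin n) (Fin n) ℤ) (hG : G.det ≠ 0)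
    (z : Fin m → Fin n → ℤ) (hz : LinearIndependent ℤ z) :
    ∃ i0, ∃ i : Fin n, r ≤ (i : ℕ) ∧ (G.updateRow i (z i0)).det ≠ 0 := by
  classical
  by_contra hcon
  push Not at hcon
  have hcr : ∀ x : Fin n → ℤ, G.det • x = ∑ i, (G.updateRow i x).det • G i := by
    intro x
    have h1 := Matrix.mulVec_cramer G.transpose x
    rw [Matrix.det_transpose] at h1
    rw [← h1]
    funext l
    simp only [Matrix.mulVec, dotProduct, Finset.sum_apply, Pi.smul_apply, smul_eq_mul,
      Matrix.transpose_apply]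
    refine Finset.sum_congr rfl fun i _ => ?_
    rw [Matrix.cramer_transpose_apply]
    ring
  have hz' : LinearIndependent ℤ (fun i => G.det • z i) := by
    rw [Fintype.linearIndependent_iff] at hz ⊢
    intro a ha
    have h1 : G.det • ∑ i, a i • z i = 0 := by
      rw [Finset.smul_sum, ← ha]
      exact Finset.sum_congr rfl fun i _ => smul_comm _ _ _
    exact hz a ((smul_eq_zero.1 h1).resolve_left hG)
  set S : Finset (Fin n → ℤ) :=
    (Finset.univ.filter (fun i : Fin n => (i : ℕ) < r)).image G with hS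
  have hspan : Set.range (fun i => G.det • z i) ≤ Submodule.span ℤ (S : Set (Fin n → ℤ)) := by
    rintro _ ⟨i0, rfl⟩
    simp only
    rw [hcr]
    refine Submodule.sum_mem _ fun i _ => ?_
    by_cases hi : (i : ℕ) < r
    · apply Submodule.smul_mem
      apply Submodule.subset_span
      rw [hS, Finset.coe_image]
      exact ⟨i, by simpa using hi, rfl⟩
    · rw [hcon i0 i (not_lt.1 hi), zero_smul]
      exact Submodule.zero_mem _
  have h1 := linearIndependent_le_span' _ hz' (S : Set (Fin n → ℤ)) hspan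
  rw [Cardinal.mk_fintype, Fintype.card_fin] at h1
  have h2 : m ≤ Fintype.card (S : Set (Fin n → ℤ)) := by exact_mod_cast h1
  have h3 : Fintype.card (S : Set (Fin n → ℤ)) = S.card := by simp
  have h4 : S.card ≤ r := by
    refine Finset.card_image_le.trans ?_
    have h5 : (Finset.univ.filter (fun i : Fin n => (i : ℕ) < r)).card ≤ (Finset.range r).card := by
      refine Finset.card_le_card_of_injOn (fun i => (i : ℕ)) ?_ ?_
      · intro i hi
        simpa using hi
      · intro i _ j _ h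
        exact Fin.ext h
    simpa using h5
  omega

end Pool.Agent.TH717.ST
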