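import Mathlib
import Pool.Agent.H9.Lib.R_seed8.TH286.GT.RedO
import Pool.Agent.H9.Lib.R_seed8.TH717.ST.GapT

/-!
From a solution in a lattice without `m` independent points in a larger body to a hyperplane in a
compound space which comes from a subspace of dimension less than `m`.
-/

set_option autoImplicit false

open Finset Filter Topology

namespace Pool.Agent.TH717.ST

open Pool.Agent.TH286.GT Pool.Agent.TH286.GT.RedO
open Pool.Agent.TH461.SST (Big Ix wedge cpd Bal HeightPairStmt CBStmt SFStmt GapStmt CompStmt)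
open Pool.Agent.TH461.SST.Red (prod_emb cpd_mul cpd_map cpd_det_ne cpd_diag sum_Ix card_Ix mk_eq
  dual_part)

theorem ext (hcb : CBStmt) (hsf : SFStmt) {n k r : ℕ} (hk1 : 1 ≤ k) (hkn : k ≤ n)
    (hkr : k + r = n) (G : Matrix (Fin n) (Fin n) ℤ) (i : Fin n) (hi : r ≤ (i : ℕ))
    (w0 : Fin n → ℤ) (hdet : (G.updateRow i w0).det ≠ 0) (y : Ix n k → ℤ)
    (h1 : ∀ V : Matrix (Fin n) (Fin k) ℤ, (∃ c0, ∃ j : Fin n, (j : ℕ) < r ∧ ∀ l, V l c0 = G j l) →
      ∑ I, y I * wedge V I = 0)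
    (h2 : ∀ V : Matrix (Fin n) (Fin k) ℤ, (∃ c0, ∀ l, V l c0 = w0 l) →
      ∑ I, y I * wedge V I = 0) : y = 0 := by
  classical
  set P : Matrix (Fin n) (Fin n) ℤ := (G.updateRow i w0).transpose with hP
  have hPd : P.det ≠ 0 := by
    rw [hP, Matrix.det_transpose]
    exact hdet
  refine Matrix.eq_zero_of_vecMul_eq_zero (cpd_det_ne hsf hk1 hkn P hPd) ?_
  funext J
  have key : ∑ I, y I * wedge (P.submatrix id (J.1.orderEmbOfFin J.2)) I = 0 := by
    by_cases hc : ∃ c0, ((J.1.orderEmbOfFin J.2 c0 : Fin n) : ℕ) < r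
    · obtain ⟨c0, hc0⟩ := hc
      refine h1 _ ⟨c0, J.1.orderEmbOfFin J.2 c0, hc0, fun l => ?_⟩
      rw [Matrix.submatrix_apply, hP, Matrix.transpose_apply, Matrix.updateRow_ne, id]
      intro h
      rw [h] at hc0
      omega
    · push Not at hc
      by_cases hc' : ∃ c0, J.1.orderEmbOfFin J.2 c0 = i
      · obtain ⟨c0, hc0⟩ := hc'
        refine h2 _ ⟨c0, fun l => ?_⟩
        rw [Matrix.submatrix_apply, hP, Matrix.transpose_apply, hc0, Matrix.updateRow_self, id]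
      · push Not at hc'
        exfalso
        have hsub : J.1 ⊆ (Finset.univ.filter (fun j : Fin n => r ≤ (j : ℕ))).erase i := by
          intro j hj
          obtain ⟨c0, hc0⟩ : ∃ c0, J.1.orderEmbOfFin J.2 c0 = j := by
            have : j ∈ Set.range (J.1.orderEmbOfFin J.2) := by
              rw [Finset.range_orderEmbOfFin]
              exact hj
            exact this
          rw [Finset.mem_erase, Finset.mem_filter]
          refine ⟨?_, Finset.mem_univ _, ?_⟩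
          · rw [← hc0]; exact hc' c0
          · rw [← hc0]; exact hc c0
        have hcard := Finset.card_le_card hsub
        rw [J.2, Finset.card_erase_of_mem (by simp [hi])] at hcard
        have h5 : (Finset.univ.filter (fun j : Fin n => r ≤ (j : ℕ))).card ≤ (Finset.Ico r n).card :=
          Finset.card_le_card_of_injOn (fun j => (j : ℕ)) (by
            intro j hj
            simp only [Finset.coe_filter, Finset.mem_univ, true_and, Set.mem_setOf_eq] at hj
            simp only [Finset.coe_Ico, Set.mem_Ico]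
            exact ⟨hj, j.2⟩) (fun a _ b _ h => Fin.ext h)
        rw [Nat.card_Ico] at h5
        omega
  exact key

theorem redT (O : Type) [CommRing O] [IsDomain O] [Module.Free ℤ O] [Module.Finite ℤ O] (φ : O →+* ℂ)
    (hcb : CBStmt) (hsf : SFStmt) (hcomp : CompStmt) (n : ℕ) (hn : 2 ≤ n) (m : ℕ) (hmn : m ≤ n)
    (M0 : Matrix (Fin n) (Fin n) O) (hM0 : M0.det ≠ 0) (him : ∀ i j, (φ (M0 i j)).im = 0)
    (c γ : ℝ) (hc : 1 ≤ c) (hγ : 0 < γ) :
    ∃ c' γ' N1 : ℝ, 1 ≤ c' ∧ 0 < γ' ∧ ∀ N : ℝ, N1 ≤ N → ∀ (B : Matrix (Fin n) (Fin n) ℤ)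
      (_ : B.det ≠ 0) (A : Fin n → ℝ) (_ : SizeO c γ N B A) (x : Fin n → ℤ) (_ : x ≠ 0)
      (_ : SolO φ M0 B A x)
      (_ : ∀ z : Fin m → Fin n → ℤ, LinearIndependent ℤ z → (∀ i, ∃ z', z i = B.mulVec z') →
        ∃ i l, Real.exp (γ * N) * A l < ‖φ (∑ j, M0 l j * ((z i j : ℤ) : O))‖),
      ∃ (k : ℕ) (_ : 1 ≤ k) (_ : k < n) (A' : Ix n k → ℝ)
        (w : Fin (n.choose k - 1) → Ix n k → ℤ) (y : Ix n k → ℤ),
        SizeO c' γ' N (cpd k B) A' ∧ LinearIndependent ℤ w ∧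
        (∀ i, SolO φ (cpd k M0) (cpd k B) A' (w i)) ∧ y ≠ 0 ∧
        (∀ i, ∑ I, y I * w i I = 0) ∧
        (∀ V : Matrix (Fin n) (Fin k) ℤ, (∃ c0, ∀ l, V l c0 = x l) → ∑ I, y I * wedge V I = 0) ∧
        ∀ z : Fin m → Fin n → ℤ, LinearIndependent ℤ z → ∃ V : Matrix (Fin n) (Fin k) ℤ,
          (∃ i c0, ∀ l, V l c0 = z i l) ∧ ∑ I, y I * wedge V I ≠ 0 := by
  classical
  obtain ⟨C0, hC0, hgap'⟩ := gapT n hn
  have hcomp' := fun (k : ℕ) (h1 : 1 ≤ k) (h2 : k < n) => hcomp n k h1 h2 C0 hC0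
  choose Cf hCf1 hCf using hcomp'
  obtain ⟨C1, hC11, hC1⟩ : ∃ C1 : ℝ, 1 ≤ C1 ∧
      ∀ k (h1 : 1 ≤ k) (h2 : k < n), Cf k h1 h2 ≤ C1 := by
    have hnn : ∀ k ∈ range n, 0 ≤ (if h : 1 ≤ k ∧ k < n then Cf k h.1 h.2 else 0 : ℝ) := by
      intro k _
      split_ifs with h
      · have := hCf1 k h.1 h.2
        linarith
      · exact le_rfl
    refine ⟨1 + ∑ k ∈ range n, (if h : 1 ≤ k ∧ k < n then Cf k h.1 h.2 else 0), ?_, ?_⟩
    · have := Finset.sum_nonneg hnn
      linarith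
    · intro k h1 h2
      have := Finset.single_le_sum hnn (Finset.mem_range.mpr h2)
      rw [dif_pos ⟨h1, h2⟩] at this
      linarith
  have hn1 : (1 : ℝ) ≤ n := by exact_mod_cast (by omega : 1 ≤ n)
  have hn0 : (0 : ℝ) < n := by linarith
  -- the real matrix
  set Mr : Matrix (Fin n) (Fin n) ℝ := Matrix.of fun i j => (φ (M0 i j)).re with hMr
  have hphi : ∀ i j, φ (M0 i j) = ((Mr i j : ℝ) : ℂ) := by
    intro i j
    rw [hMr, Matrix.of_apply]
    apply Complex.ext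
    · rw [Complex.ofReal_re]
    · rw [Complex.ofReal_im, him i j]
  have hMr0 : Mr.det ≠ 0 := by
    intro h0
    have h1 := phi_det φ M0 Mr hphi
    rw [h0] at h1
    exact phi_ne φ hM0 (by rw [h1]; simp)
  -- the constant `K`
  have hlow : ∀ (k : ℕ) (h1 : 1 ≤ k) (h2 : k < n), ∃ κ : ℝ, 0 < κ ∧
      ∀ w : Ix n k → ℤ, w ≠ 0 → ∃ I, κ ≤ |((cpd k Mr).mulVec (fun J => (w J : ℝ))) I| := by
    intro k h1 h2
    apply low
    rw [hsf n k h1 h2.le Mr hMr0]
    exact pow_ne_zero _ hMr0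
  choose κf hκf1 hκf using hlow
  obtain ⟨K, hK0, hK⟩ : ∃ K : ℝ, 0 ≤ K ∧
      ∀ k (h1 : 1 ≤ k) (h2 : k < n), Real.exp (-K) ≤ κf k h1 h2 := by
    have hnn : ∀ k ∈ range n,
        0 ≤ (if h : 1 ≤ k ∧ k < n then |Real.log (κf k h.1 h.2)| else 0 : ℝ) := by
      intro k _
      split_ifs with h
      · exact abs_nonneg _
      · exact le_rfl
    refine ⟨∑ k ∈ range n, (if h : 1 ≤ k ∧ k < n then |Real.log (κf k h.1 h.2)| else 0),
      Finset.sum_nonneg hnn, ?_⟩
    intro k h1 h2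
    have := Finset.single_le_sum hnn (Finset.mem_range.mpr h2)
    rw [dif_pos ⟨h1, h2⟩] at this
    rw [← Real.le_log_iff_exp_le (hκf1 k h1 h2)]
    have h3 := neg_abs_le (Real.log (κf k h1 h2))
    linarith
  set D0 : ℝ := Real.log |Mr.det| with hD0def
  have hD0 : 0 ≤ |D0| := abs_nonneg _
  have hlC0 : 0 ≤ Real.log C0 := Real.log_nonneg hC0
  have hlC1 : 0 ≤ Real.log C1 := Real.log_nonneg hC11
  refine ⟨(2 ^ n + 1) * n * (K + |D0| + 3 * c), γ / (4 * n ^ 2),
    1 + (2 * |D0| + 2 * n * Real.log C0) / γ + 2 * n ^ 2 * (Real.log C1 + 1) / γ +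
      4 * n ^ 2 * (2 ^ n * |D0| + Real.log C1) / γ, ?_, by positivity, ?_⟩
  · have h1 : (1 : ℝ) ≤ 2 ^ n + 1 := by
      have : (0 : ℝ) ≤ 2 ^ n := by positivity
      linarith
    have h2 : (1 : ℝ) ≤ K + |D0| + 3 * c := by nlinarith
    have h3 : (1 : ℝ) ≤ (2 ^ n + 1) * n := by nlinarith
    nlinarith
  intro N hN B hB0 A hS x hx hSol hVol
  have hq1 : 0 ≤ (2 * |D0| + 2 * n * Real.log C0) / γ := by positivity
  have hq2 : 0 ≤ 2 * n ^ 2 * (Real.log C1 + 1) / γ := by positivity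
  have hq3 : 0 ≤ 4 * n ^ 2 * (2 ^ n * |D0| + Real.log C1) / γ := by positivity
  have hN1 : 1 ≤ N := by linarith
  have hNa : 2 * |D0| + 2 * n * Real.log C0 ≤ γ * N := by
    have : (2 * |D0| + 2 * n * Real.log C0) / γ ≤ N := by linarith
    rw [div_le_iff₀ hγ] at this
    linarith
  have hNb : 2 * n ^ 2 * (Real.log C1 + 1) ≤ γ * N := by
    have : 2 * n ^ 2 * (Real.log C1 + 1) / γ ≤ N := by linarith
    rw [div_le_iff₀ hγ] at this
    linarith
  have hNc : 4 * n ^ 2 * (2 ^ n * |D0| + Real.log C1) ≤ γ * N := by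
    have : 4 * n ^ 2 * (2 ^ n * |D0| + Real.log C1) / γ ≤ N := by linarith
    rw [div_le_iff₀ hγ] at this
    linarith
  obtain ⟨x0, hx0⟩ := hSol.2
  have hx00 : x0 ≠ 0 := by
    rintro rfl
    apply hx
    rw [hx0, Matrix.mulVec_zero]
  have hB0R : (B.det : ℝ) ≠ 0 := by exact_mod_cast hB0
  set D : ℝ := Real.log |(B.det : ℝ)| with hDdef
  set Br : Matrix (Fin n) (Fin n) ℝ := B.map (Int.cast : ℤ → ℝ) with hBr
  have hBrdet : Br.det = (B.det : ℝ) := by
    have := (Int.castRingHom ℝ).map_det B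
    rw [eq_intCast] at this
    rw [this]
    congr 1
  set Q : Matrix (Fin n) (Fin n) ℝ := Mr * Br with hQ
  have hQdet : Q.det = Mr.det * B.det := by
    rw [hQ, Matrix.det_mul, hBrdet]
  set lr : ℝ := (D0 + D - ∑ l, Real.log (A l)) / n with hlrdef
  have hlr : n * lr = D0 + D - ∑ l, Real.log (A l) := by
    rw [hlrdef]; field_simp
  have hA0 : ∀ l, 0 < A l := hS.2.1
  have hS4 := hS.2.2.2
  have hDneg : -|D0| ≤ D0 := neg_abs_le D0
  have hlrlow : γ * N / (2 * n) + Real.log C0 ≤ lr := by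
    rw [hlrdef, le_div_iff₀ hn0]
    have : (γ * N / (2 * n) + Real.log C0) * n = γ * N / 2 + n * Real.log C0 := by
      field_simp
    rw [this]
    linarith
  have hlr0 : 0 ≤ lr := by
    have : 0 ≤ γ * N / (2 * n) := by positivity
    linarith
  set ρ : ℝ := Real.exp lr with hρ
  have hρ0 : 0 < ρ := Real.exp_pos _
  set L : Matrix (Fin n) (Fin n) ℝ :=
    Matrix.of fun i j => (ρ⁻¹ * (A i)⁻¹) * Q i j with hL
  have hdet : |L.det| = 1 := by
    have h1 : L.det = (∏ i, (ρ⁻¹ * (A i)⁻¹)) * Q.det := by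
      rw [hL, Matrix.det_mul_column]
    have h3 : ∏ i, (ρ⁻¹ * (A i)⁻¹) = (Real.exp (n * lr + ∑ l, Real.log (A l)))⁻¹ := by
      rw [Finset.prod_mul_distrib, Finset.prod_const, Finset.card_univ, Fintype.card_fin,
        Finset.prod_inv_distrib, inv_pow, Real.exp_add, Real.exp_sum, mul_inv]
      congr 2
      · rw [hρ, ← Real.exp_nat_mul]
      · refine Finset.prod_congr rfl (fun l _ => ?_)
        rw [Real.exp_log (hA0 l)]
    have h4 : |Q.det| = Real.exp (D0 + D) := by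
      rw [hQdet, abs_mul, Real.exp_add, hD0def, hDdef, Real.exp_log (abs_pos.mpr hMr0),
        Real.exp_log (abs_pos.mpr hB0R)]
    have h5 : n * lr + ∑ l, Real.log (A l) = D0 + D := by
      rw [hlr]; ring
    rw [h1, abs_mul, h4, h3, h5, abs_inv, abs_of_pos (Real.exp_pos _)]
    exact inv_mul_cancel₀ (Real.exp_pos _).ne'
  set lg : ℝ := γ * N / (2 * n ^ 2) with hlg
  have hlg0 : Real.log C1 + 1 ≤ lg := by
    rw [hlg, le_div_iff₀ (by positivity)]
    linarith
  have hlgn : n * lg = γ * N / (2 * n) := by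
    rw [hlg]; field_simp
  set g : ℝ := Real.exp lg with hg
  have hg1 : 1 ≤ g := by
    rw [hg]
    exact Real.one_le_exp (by linarith)
  have hC1g : C1 < g := by
    rw [hg, ← Real.log_lt_iff_lt_exp (by linarith)]
    linarith
  have hLz : ∀ (z : Fin n → ℤ) (l : Fin n), (L.mulVec (fun i => (z i : ℝ))) l =
      (ρ⁻¹ * (A l)⁻¹) * (Mr.mulVec (fun j => ((B.mulVec z j : ℤ) : ℝ))) l := by
    intro z l
    have h2 : Mr.mulVec (fun j => ((B.mulVec z j : ℤ) : ℝ)) = Q.mulVec (fun j => (z j : ℝ)) := by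
      rw [hQ, ← Matrix.mulVec_mulVec]
      congr 1
      ext j
      change ((∑ i, B j i * z i : ℤ) : ℝ) = ∑ i, ((B j i : ℤ) : ℝ) * (z i : ℝ)
      push_cast
      rfl
    rw [h2]
    change ∑ j, L l j * (z j : ℝ) = _ * ∑ j, Q l j * (z j : ℝ)
    rw [Finset.mul_sum]
    refine Finset.sum_congr rfl (fun j _ => ?_)
    rw [hL, Matrix.of_apply]
    ring
  have hLx : ∀ l, |(L.mulVec (fun i => (x0 i : ℝ))) l| ≤ ρ⁻¹ := by
    intro l
    rw [hLz, ← hx0, abs_mul, abs_of_pos (mul_pos (inv_pos.mpr hρ0) (inv_pos.mpr (hA0 l)))]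
    have h3 := hSol.1 l
    rw [phi_vec φ M0 Mr hphi] at h3
    calc ρ⁻¹ * (A l)⁻¹ * |(Mr.mulVec (fun j => (x j : ℝ))) l| ≤ ρ⁻¹ * (A l)⁻¹ * A l :=
          mul_le_mul_of_nonneg_left h3
            (mul_pos (inv_pos.mpr hρ0) (inv_pos.mpr (hA0 l))).le
      _ = ρ⁻¹ := by
          rw [mul_assoc, inv_mul_cancel₀ (hA0 l).ne', mul_one]
  have hgn : g ^ n ≤ Real.exp (γ * N) := by
    rw [hg, ← Real.exp_nat_mul, hlgn, Real.exp_le_exp, div_le_iff₀ (by positivity)]
    have h1 : 0 ≤ γ * N := by positivity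
    nlinarith
  have hcond : ∀ z : Fin m → Fin n → ℤ, LinearIndependent ℤ z →
      ∃ i l, ρ⁻¹ * g ^ n < |(L.mulVec (fun j => (z i j : ℝ))) l| := by
    intro z hz
    have hz' : LinearIndependent ℤ (fun i => B.mulVec (z i)) := by
      have := hz.map' (Matrix.mulVecLin B) (by
        rw [LinearMap.ker_eq_bot']
        intro v hv
        exact Matrix.eq_zero_of_mulVec_eq_zero hB0 hv)
      exact this
    obtain ⟨i, l, hil⟩ := hVol _ hz' (fun i => ⟨z i, rfl⟩)
    refine ⟨i, l, ?_⟩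
    rw [phi_vec φ M0 Mr hphi] at hil
    rw [hLz, abs_mul, abs_of_pos (mul_pos (inv_pos.mpr hρ0) (inv_pos.mpr (hA0 l)))]
    have h1 : ρ⁻¹ * (A l)⁻¹ * (Real.exp (γ * N) * A l) <
        ρ⁻¹ * (A l)⁻¹ * |(Mr.mulVec (fun j => ((B.mulVec (z i) j : ℤ) : ℝ))) l| :=
      mul_lt_mul_of_pos_left hil (mul_pos (inv_pos.mpr hρ0) (inv_pos.mpr (hA0 l)))
    refine lt_of_le_of_lt ?_ h1
    have h2 : ρ⁻¹ * (A l)⁻¹ * (Real.exp (γ * N) * A l) = ρ⁻¹ * Real.exp (γ * N) := by
      have := (hA0 l).ne'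
      field_simp
    rw [h2]
    exact mul_le_mul_of_nonneg_left hgn (inv_pos.mpr hρ0).le
  have hLu : IsUnit L.det := by
    rw [isUnit_iff_ne_zero]
    intro h0
    rw [h0] at hdet
    simp at hdet
  obtain ⟨r, hr1, hrm, G, lam, hG, hlam0, hlamm, hGl, hlamC, hgapl, hGx⟩ :=
    hgap' m hmn L (L⁻¹).transpose hdet (by
      rw [Matrix.transpose_transpose]
      exact Matrix.nonsing_inv_mul L hLu) x0 hx00 g hg1 ρ⁻¹ hLx hcond
  have hrn : r < n := by omega
  obtain ⟨k, hk⟩ : ∃ k, k = n - r := ⟨_, rfl⟩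
  have hk1 : 1 ≤ k := by omega
  have hkn : k < n := by omega
  have hnk : n - k = r := by omega
  have hexpA : ∀ l, A l ≤ Real.exp (c * N) := by
    intro l
    rw [← Real.log_le_iff_le_exp (hA0 l)]
    exact (le_abs_self _).trans (hS.2.2.1 l)
  obtain ⟨Ac, y, w, hAc, hprod, hy, hw, hyw, hwA, hlast⟩ :=
    hCf k hk1 hkn L hdet G lam hG hlam0 hlamm hGl hlamC g
      (lt_of_le_of_lt (hC1 k hk1 hkn) hC1g) (by
        intro i j hi hj
        rw [hnk] at hi hj
        exact hgapl i j hi hj)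
      (Real.exp (-(K + k * lr + k * (c * N)))) (Real.exp_pos _) (by
        intro w hw
        have h1 : (cpd k B).mulVec w ≠ 0 := fun h =>
          hw (Matrix.eq_zero_of_mulVec_eq_zero (cpd_det_ne hsf hk1 hkn.le B hB0) h)
        obtain ⟨I, hI⟩ := hκf k hk1 hkn _ h1
        refine ⟨I, ?_⟩
        rw [hL, cpdL, abs_mul, hQ, hBr, cpdQ hcb]
        have h2 : Real.exp (-K) ≤
            |((cpd k Mr).mulVec (fun J => (((cpd k B).mulVec w J : ℤ) : ℝ))) I| :=
          (hK k hk1 hkn).trans hI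
        have hprodA : 0 < ∏ l ∈ I.1, A l := Finset.prod_pos (fun l _ => hA0 l)
        have h3 : Real.exp (-(k * lr + k * (c * N))) ≤ |(ρ ^ k * ∏ l ∈ I.1, A l)⁻¹| := by
          rw [abs_of_pos (by positivity), Real.exp_neg]
          apply inv_anti₀ (by positivity)
          rw [Real.exp_add]
          apply mul_le_mul
          · rw [hρ, ← Real.exp_nat_mul]
          · calc ∏ l ∈ I.1, A l ≤ ∏ l ∈ I.1, Real.exp (c * N) :=
                  Finset.prod_le_prod (fun l _ => (hA0 l).le) (fun l _ => hexpA l)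
              _ = Real.exp (k * (c * N)) := by
                  rw [Finset.prod_const, I.2, ← Real.exp_nat_mul]
          · exact hprodA.le
          · exact (Real.exp_pos _).le
        calc Real.exp (-(K + k * lr + k * (c * N))) =
            Real.exp (-(k * lr + k * (c * N))) * Real.exp (-K) := by
              rw [← Real.exp_add]
              congr 1
              ring
          _ ≤ _ := mul_le_mul h3 h2 (Real.exp_pos _).le (abs_nonneg _))
  have hdual := dual_part hcb hsf hk1 hkn.le B hB0 y hy w hw hyw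
  have hcol : ∀ (x : Fin n → ℤ) (x0 : Fin n → ℤ), x = B.mulVec x0 →
      (∀ i : Fin n, r ≤ (i : ℕ) → (G.updateRow i x0).det = 0) →
      ∀ V : Matrix (Fin n) (Fin k) ℤ, (∃ c0, ∀ l, V l c0 = x l) →
        ∑ I, ((cpd k B).adjugate.transpose.mulVec y) I * wedge V I = 0 := by
    rintro x x0 hx0 hGx V ⟨c0, hc0⟩
    apply hdual.2.2.2 V
    apply hlast _ c0
    intro i hi
    rw [hnk] at hi
    have h1 : (fun l => (B.adjugate * V) l c0) = B.det • x0 := by
      have h2 : B.adjugate.mulVec x = B.det • x0 := by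
        rw [hx0, Matrix.mulVec_mulVec, Matrix.adjugate_mul, Matrix.smul_mulVec, Matrix.one_mulVec]
      rw [← h2]
      ext l
      rw [Matrix.mul_apply]
      change _ = ∑ j, B.adjugate l j * x j
      refine Finset.sum_congr rfl (fun j _ => ?_)
      rw [hc0 j]
    rw [h1, Matrix.det_updateRow_smul, hGx i hi, mul_zero]
  refine ⟨k, hk1, hkn,
    fun I => Real.exp (k * lr) * (∏ l ∈ I.1, A l) * Ac I, fun i => (cpd k B).mulVec (w i),
    (cpd k B).adjugate.transpose.mulVec y, ?_, hdual.2.1, ?_, hdual.1, hdual.2.2.1,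
    hcol x x0 hx0 hGx, ?_⟩
  · have hCk1 := hCf1 k hk1 hkn
    have hCkC1 := hC1 k hk1 hkn
    have hlogk : Real.log (Cf k hk1 hkn) ≤ Real.log C1 :=
      Real.log_le_log (by linarith) hCkC1
    refine size_part hsf hk1 hkn c γ N hc hN1 B hB0 A hS lr D0 K hK0 hlr hlr0 Ac hAc
      (Cf k hk1 hkn) lg hCk1 hprod (by linarith) _ ?_
    have h1 : 2 ^ n * |D0| + Real.log C1 ≤ γ * N / (4 * n ^ 2) := by
      rw [le_div_iff₀ (by positivity)]
      linarith
    have h2 : γ / (4 * n ^ 2) * N = γ * N / (4 * n ^ 2) := by ring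
    have h3 : lg = γ * N / (4 * n ^ 2) + γ * N / (4 * n ^ 2) := by
      rw [hlg]; field_simp; norm_num
    rw [h2, h3]
    linarith
  · intro i
    refine ⟨fun I => ?_, ⟨w i, rfl⟩⟩
    rw [phi_vec φ (cpd k M0) (cpd k Mr) (phi_cpd φ k M0 Mr hphi)]
    have h1 := hwA i I
    have hprodA : 0 < ∏ l ∈ I.1, A l := Finset.prod_pos (fun l _ => hA0 l)
    rw [hL, cpdL, abs_mul, abs_of_pos (by positivity), hQ, hBr, cpdQ hcb] at h1
    rw [inv_mul_le_iff₀ (by positivity)] at h1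
    rw [hρ, ← Real.exp_nat_mul] at h1
    exact h1
  · intro z hz
    by_contra hcon
    push Not at hcon
    set Gx : Matrix (Fin n) (Fin n) ℤ := G * B.transpose with hGxdef
    have hGxd : Gx.det ≠ 0 := by
      rw [hGxdef, Matrix.det_mul, Matrix.det_transpose]
      exact mul_ne_zero hG hB0
    obtain ⟨i0, i, hi, hdet0⟩ := exists_out hrm Gx hGxd z hz
    apply hdual.1
    refine ext hcb hsf (r := r) hk1 hkn.le (by omega) Gx i hi (z i0) hdet0 _ ?_ ?_
    · rintro V ⟨c0, j, hj, hV⟩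
      refine hcol (B.mulVec (G j)) (G j) rfl ?_ V ⟨c0, fun l => ?_⟩
      · intro i' hi'
        exact Matrix.det_zero_of_row_eq (i := i') (j := j) (by
          intro h; rw [h] at hi'; omega) (by
          rw [Matrix.updateRow_self, Matrix.updateRow_ne]
          intro h; rw [h] at hj; omega)
      · rw [hV l, hGxdef, Matrix.mul_apply]
        change _ = ∑ a, B l a * G j a
        refine Finset.sum_congr rfl fun a _ => ?_
        rw [Matrix.transpose_apply, mul_comm]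
    · rintro V ⟨c0, hV⟩
      exact hcon V ⟨i0, c0, hV⟩


end Pool.Agent.TH717.ST
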