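import Mathlib
import Pool.Agent.H9.Lib.R_seed8.TH286.GT.SubO
import Pool.Agent.H9.Lib.R_seed8.TH286.GT.All
import Pool.Agent.H9.Lib.R_seed8.TH717.ST.RedT

/-!
The subspace theorem for the lattices `B_t ℤ^n` in the form of the filtration: if there are no `m`
independent lattice points in the bodies enlarged by `exp (γ N)`, then the solutions are frequently
in one subspace of dimension less than `m`.
-/

set_option autoImplicit false

open Finset Filter Topology

namespace Pool.Agent.TH717.ST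

open Pool.Agent.TH286.GT Pool.Agent.TH286.GT.SubO
open Pool.Agent.TH461.SST (Big Ix wedge cpd Bal HeightPairStmt CBStmt SFStmt GapStmt CompStmt)
open Pool.Agent.TH461.SST.Sub (proportional cpd_det_ne EE wedge_EE_self wedge_EE_ne Phi Phi_apply
  Phi_unit frequently_fin)

theorem subT (O : Type) [CommRing O] [IsDomain O] [Module.Free ℤ O] [Module.Finite ℤ O]
    (φ : O →+* ℂ) (hpen : PenOStmt O φ) (hcb : CBStmt) (hsf : SFStmt) (hcomp : CompStmt)
    (n s m : ℕ) (hn : 1 ≤ n) (hmn : m ≤ n) (M0 M : Matrix (Fin n) (Fin n) O)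
    (lam : Fin s → Fin n → O) (hDat : DataO φ M0 M lam) (c γ : ℝ) (hc : 1 ≤ c) (hγ : 0 < γ)
    (N : ℕ → ℝ) (hN : Tendsto N atTop atTop)
    (kk : ℕ → Fin s → ℕ) (B : ℕ → Matrix (Fin n) (Fin n) ℤ)
    (hLat : ∀ t, Lat M (bet lam (kk t)) (B t)) (A : ℕ → Fin n → ℝ)
    (hSize : ∀ t, SizeO c γ (N t) (B t) (A t))
    (x : ℕ → Fin n → ℤ) (hx : ∀ t, x t ≠ 0) (hSol : ∀ t, SolO φ M0 (B t) (A t) (x t))
    (hVol : ∀ t, ∀ z : Fin m → Fin n → ℤ, LinearIndependent ℤ z →
      (∀ i, ∃ z', z i = (B t).mulVec z') →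
        ∃ i l, Real.exp (γ * N t) * A t l < ‖φ (∑ j, M0 l j * ((z i j : ℤ) : O))‖)
    (b : Fin m → Fin n → ℤ) (hb : LinearIndependent ℤ b) :
    ∃ f : Fin n → ℤ, (∃ i, ∑ l, f l * b i l ≠ 0) ∧ ∃ᶠ t in atTop, ∑ l, f l * x t l = 0 := by
  classical
  rcases Nat.lt_or_ge n 2 with hn2 | hn2
  · exfalso
    obtain ⟨t, ht⟩ := (hN.eventually_ge_atTop 0).exists
    have hexp : 1 ≤ Real.exp (γ * N t) := Real.one_le_exp (by positivity)
    rcases Nat.eq_zero_or_pos m with hm0 | hm0
    · subst hm0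
      obtain ⟨i, -⟩ := hVol t (fun i => i.elim0) (linearIndependent_empty_type) (fun i => i.elim0)
      exact i.elim0
    · have h1 : m = 1 := by omega
      subst h1
      obtain ⟨i, l, hil⟩ := hVol t (fun _ => x t)
        (linearIndependent_unique_iff (v := fun _ : Fin 1 => x t) |>.2 (hx t))
        (fun _ => (hSol t).2)
      have h2 := (hSol t).1 l
      have h3 := (hSize t).2.1 l
      nlinarith
  obtain ⟨h0, him, hM, hlam⟩ := hDat
  obtain ⟨c', γ', N1, hc', hγ', hred⟩ := redT O φ hcb hsf hcomp n hn2 m hmn M0 h0 him c γ hc hγ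
  have hev : ∀ᶠ t in atTop, ∃ k, k < n ∧ (1 ≤ k ∧ ∃ (A' : Ix n k → ℝ)
        (w : Fin (n.choose k - 1) → Ix n k → ℤ) (y : Ix n k → ℤ),
        SizeO c' γ' (N t) (cpd k (B t)) A' ∧ LinearIndependent ℤ w ∧
        (∀ i, SolO φ (cpd k M0) (cpd k (B t)) A' (w i)) ∧ y ≠ 0 ∧
        (∀ i, ∑ I, y I * w i I = 0) ∧
        (∀ V : Matrix (Fin n) (Fin k) ℤ, (∃ c0, ∀ l, V l c0 = x t l) →
          ∑ I, y I * wedge V I = 0) ∧
        ∀ z : Fin m → Fin n → ℤ, LinearIndependent ℤ z → ∃ V : Matrix (Fin n) (Fin k) ℤ,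
          (∃ i c0, ∀ l, V l c0 = z i l) ∧ ∑ I, y I * wedge V I ≠ 0) := by
    filter_upwards [hN.eventually_ge_atTop N1] with t ht
    obtain ⟨k, hk1, hk2, A', w, y, h⟩ := hred (N t) ht (B t) (hLat t).1 (A t) (hSize t) (x t)
      (hx t) (hSol t) (hVol t)
    exact ⟨k, hk2, hk1, A', w, y, h⟩
  obtain ⟨k, hkn, hfr⟩ := frequently_fin hev
  obtain ⟨ψ, hψ, hall⟩ := Filter.extraction_of_frequently_atTop hfr
  have hk1 : 1 ≤ k := (hall 0).1
  choose A' w y hS hli hsol hy0 hyw hyV hyT using fun m => (hall m).2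
  -- the number of the coordinates
  have hch : 2 ≤ n.choose k := by
    obtain ⟨n1, rfl⟩ : ∃ n1, n = n1 + 1 := ⟨n - 1, by omega⟩
    obtain ⟨k1, rfl⟩ : ∃ k1, k = k1 + 1 := ⟨k - 1, by omega⟩
    rw [Nat.choose_succ_succ']
    have h1 : 0 < n1.choose k1 := Nat.choose_pos (by omega)
    have h2 : 0 < n1.choose (k1 + 1) := Nat.choose_pos (by omega)
    omega
  have hcard : Fintype.card (Ix n k) = n.choose k - 1 + 1 := by
    have h1 : Fintype.card (Ix n k) = (Fintype.card (Fin n)).choose k := Fintype.card_finset_len k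
    rw [h1, Fintype.card_fin]
    omega
  let σ : Ix n k ≃ Fin (n.choose k - 1 + 1) := Fintype.equivFinOfCardEq hcard
  have hsum : ∀ f : Ix n k → ℝ, ∑ l, f (σ.symm l) = ∑ I, f I := fun f => Equiv.sum_comp σ.symm f
  have hsumZ : ∀ f : Ix n k → ℤ, ∑ l, f (σ.symm l) = ∑ I, f I := fun f => Equiv.sum_comp σ.symm f
  have hsumO : ∀ f : Ix n k → O, ∑ l, f (σ.symm l) = ∑ I, f I := fun f => Equiv.sum_comp σ.symm f
  -- transport
  have hDat' : DataO φ ((cpd k M0).submatrix σ.symm σ.symm) ((cpd k M).submatrix σ.symm σ.symm)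
      (fun v l => ∏ i ∈ (σ.symm l).1, lam v i) := by
    refine ⟨?_, fun i j => ?_, ?_, fun v l => ?_⟩
    · rw [Matrix.det_submatrix_equiv_self]
      exact cpdO_det_ne hcb M0 h0
    · rw [Matrix.submatrix_apply]
      exact cpdO_im φ M0 him _ _
    · rw [Matrix.det_submatrix_equiv_self]
      exact cpdO_det_ne hcb M hM
    · exact Finset.prod_ne_zero_iff.2 fun i _ => hlam v i
  have hN' : Tendsto (fun m => N (ψ m)) atTop atTop := hN.comp hψ.tendsto_atTop
  have hLat' : ∀ m, Lat ((cpd k M).submatrix σ.symm σ.symm)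
      (bet (fun v l => ∏ i ∈ (σ.symm l).1, lam v i) (kk (ψ m)))
      ((cpd k (B (ψ m))).submatrix σ.symm σ.symm) := by
    intro m
    obtain ⟨g1, g2⟩ := hLat (ψ m)
    refine ⟨?_, ?_⟩
    · rw [Matrix.det_submatrix_equiv_self]
      exact cpd_det_ne hsf hk1 hkn _ g1
    · have h1 := congrArg (fun T => cpd k T) g2
      rw [cpdO_mul hcb, cpdO_mul hcb, cpdO_diagonal, cpdO_map] at h1
      have h2 : bet (fun v l => ∏ i ∈ (σ.symm l).1, lam v i) (kk (ψ m)) =
          fun l => ∏ i ∈ (σ.symm l).1, bet lam (kk (ψ m)) i := by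
        funext l
        unfold bet
        rw [Finset.prod_comm]
        refine Finset.prod_congr rfl fun v _ => ?_
        rw [Finset.prod_pow]
      rw [h2]
      ext a b
      have h3 := congrFun (congrFun h1 (σ.symm a)) (σ.symm b)
      rw [Matrix.diagonal_mul, Matrix.mul_apply] at h3
      rw [Matrix.diagonal_mul, Matrix.mul_apply, Matrix.submatrix_apply, ← h3]
      exact hsumO fun J => cpd k M (σ.symm a) J *
        (cpd k (B (ψ m))).map (Int.castRingHom O) J (σ.symm b)
  have hS' : ∀ m, SizeO c' γ' (N (ψ m)) ((cpd k (B (ψ m))).submatrix σ.symm σ.symm)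
      (fun l => A' m (σ.symm l)) := by
    intro m
    obtain ⟨g1, g2, g3, g4⟩ := hS m
    unfold SizeO
    rw [Matrix.det_submatrix_equiv_self]
    refine ⟨g1, fun l => g2 _, fun l => g3 _, ?_⟩
    rw [hsum (fun I => Real.log (A' m I))]
    exact g4
  have hli' : ∀ m, LinearIndependent ℤ (fun i l => w m i (σ.symm l)) := by
    intro m
    have h1 := (hli m).map' (LinearMap.funLeft ℤ ℤ σ.symm) (by
      rw [LinearMap.ker_eq_bot]
      exact LinearMap.funLeft_injective_of_surjective ℤ ℤ _ σ.symm.surjective)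
    exact h1
  have hsol' : ∀ m i, SolO φ ((cpd k M0).submatrix σ.symm σ.symm)
      ((cpd k (B (ψ m))).submatrix σ.symm σ.symm)
      (fun l => A' m (σ.symm l)) (fun l => w m i (σ.symm l)) := by
    intro m i
    obtain ⟨g1, z, g2⟩ := hsol m i
    refine ⟨fun l => ?_, fun l => z (σ.symm l), ?_⟩
    · have h1 := g1 (σ.symm l)
      rw [← hsumO] at h1
      exact h1
    · funext l
      have h1 := congrFun g2 (σ.symm l)
      rw [h1]
      unfold Matrix.mulVec dotProduct
      rw [← hsumZ]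
      rfl
  obtain ⟨ys, hys0, hys⟩ := hpen (n.choose k - 1) (by omega) s _ _ _ hDat' c' γ' hc' hγ'
    (fun m => N (ψ m)) hN' (fun m => kk (ψ m)) _ hLat' _ hS'
    (fun m i l => w m i (σ.symm l)) hli' hsol'
  -- the vector in the compound space
  set Y : Ix n k → ℤ := fun I => ys (σ I) with hY
  have hprop : ∀ m', (∀ i, ∑ l, ys l * w m' i (σ.symm l) = 0) → ∃ α β : ℤ, α ≠ 0 ∧ β ≠ 0 ∧
      ∀ I, β * Y I = α * y m' I := by
    intro m' hm
    have hYw : ∀ i, ∑ I, Y I * w m' i I = 0 := by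
      intro i
      rw [← hm i, ← hsumZ]
      refine Finset.sum_congr rfl fun l _ => ?_
      rw [hY]
      simp
    obtain ⟨α, β, hβ, hαβ⟩ := proportional hcard (w m') (hli m') Y (y m') (hy0 m') hYw (hyw m')
    refine ⟨α, β, ?_, hβ, hαβ⟩
    intro hα
    apply hys0
    funext l
    have h1 := hαβ (σ.symm l)
    rw [hα, zero_mul] at h1
    have h2 := (mul_eq_zero.1 h1).resolve_left hβ
    rw [hY] at h2
    simpa using h2
  obtain ⟨m0, hm0⟩ := hys.exists
  obtain ⟨α0, β0, hα0, hβ0, hp0⟩ := hprop m0 hm0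
  obtain ⟨V, ⟨i0, c0, hV0⟩, hV⟩ := hyT m0 b hb
  have hYV : ∑ I, Y I * wedge V I ≠ 0 := by
    intro h
    apply hV
    have h3 : β0 * ∑ I, Y I * wedge V I = α0 * ∑ I, y m0 I * wedge V I := by
      rw [Finset.mul_sum, Finset.mul_sum]
      refine Finset.sum_congr rfl fun I _ => ?_
      rw [← mul_assoc, ← mul_assoc, hp0 I]
    rw [h, mul_zero] at h3
    exact (mul_eq_zero.1 h3.symm).resolve_left hα0
  -- the functional
  have hlin : ∃ f : Fin n → ℤ, ∀ u : Fin n → ℤ,
      ∑ I, Y I * wedge (V.updateCol c0 u) I = ∑ l, f l * u l := by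
    have hL : ∃ F : (Fin n → ℤ) →ₗ[ℤ] ℤ, ∀ u, F u = ∑ I, Y I * wedge (V.updateCol c0 u) I := by
      refine ⟨{ toFun := (fun u => ∑ I, Y I * wedge (V.updateCol c0 u) I)
                map_add' := ?_
                map_smul' := ?_ }, fun u => rfl⟩
      · intro u v
        rw [← Finset.sum_add_distrib]
        refine Finset.sum_congr rfl fun I _ => ?_
        rw [← mul_add]
        congr 1
        unfold wedge
        have h1 : ∀ u : Fin n → ℤ, (V.updateCol c0 u).submatrix (I.1.orderEmbOfFin I.2) id =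
            (V.submatrix (I.1.orderEmbOfFin I.2) id).updateCol c0
              (fun a => u (I.1.orderEmbOfFin I.2 a)) := by
          intro u
          ext a b'
          by_cases hb' : b' = c0
          · subst hb'; simp
          · simp [Matrix.updateCol_ne hb']
        rw [h1, h1, h1, ← Matrix.det_updateCol_add]
        rfl
      · intro a u
        rw [RingHom.id_apply, smul_eq_mul, Finset.mul_sum]
        refine Finset.sum_congr rfl fun I _ => ?_
        have h1 : ∀ u : Fin n → ℤ, (V.updateCol c0 u).submatrix (I.1.orderEmbOfFin I.2) id =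
            (V.submatrix (I.1.orderEmbOfFin I.2) id).updateCol c0
              (fun a => u (I.1.orderEmbOfFin I.2 a)) := by
          intro u
          ext a b'
          by_cases hb' : b' = c0
          · subst hb'; simp
          · simp [Matrix.updateCol_ne hb']
        unfold wedge
        rw [h1, h1]
        have h2 : (fun a' => (a • u) (I.1.orderEmbOfFin I.2 a')) =
            a • (fun a' => u (I.1.orderEmbOfFin I.2 a')) := rfl
        rw [h2, Matrix.det_updateCol_smul]
        ring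
    obtain ⟨F, hF⟩ := hL
    refine ⟨fun l => F (fun j => if l = j then 1 else 0), fun u => ?_⟩
    rw [← hF, LinearMap.pi_apply_eq_sum_univ F u]
    exact Finset.sum_congr rfl fun l _ => by rw [smul_eq_mul, mul_comm]
  obtain ⟨f, hf⟩ := hlin
  refine ⟨f, ⟨i0, ?_⟩, ?_⟩
  · rw [← hf]
    have h1 : V.updateCol c0 (b i0) = V := by
      ext a b'
      by_cases hb' : b' = c0
      · subst hb'
        rw [Matrix.updateCol_self, hV0]
      · rw [Matrix.updateCol_ne hb']
    rw [h1]
    exact hYV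
  · refine hψ.tendsto_atTop.frequently (hys.mono fun m' hm => ?_)
    obtain ⟨α, β, hα, hβ, hαβ⟩ := hprop m' hm
    rw [← hf]
    have h2 := hyV m' (V.updateCol c0 (x (ψ m'))) ⟨c0, fun l => by rw [Matrix.updateCol_self]⟩
    have h3 : β * ∑ I, Y I * wedge (V.updateCol c0 (x (ψ m'))) I =
        α * ∑ I, y m' I * wedge (V.updateCol c0 (x (ψ m'))) I := by
      rw [Finset.mul_sum, Finset.mul_sum]
      refine Finset.sum_congr rfl fun I _ => ?_
      rw [← mul_assoc, ← mul_assoc, hαβ I]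
    rw [h2, mul_zero] at h3
    exact (mul_eq_zero.1 h3).resolve_left hβ


end Pool.Agent.TH717.ST
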