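import Mathlib
import Pool.Agent.H9.Lib.R_seed8.TH717.ST.SubT
import Pool.Agent.H9.Lib.R_seed8.TH717.ST.Alg
import Pool.Agent.H9.Lib.R_seed8.TH717.SK.LinA

/-!
The subspace theorem for points of a rational subspace and of the lattices `C^n ℤ^d`.
-/

set_option autoImplicit false

open Finset Filter Topology

namespace Pool.Agent.TH717.ST

open NumberField
open Pool.Agent.TH286.GT.GrowD (sg sg_coe sg_inj)
open Pool.Agent.TH717.SK (exists_minor ker_cast real_rows)

theorem exists_ext {d m : ℕ} (b : Fin m → Fin d → ℤ) (hb : LinearIndependent ℤ b)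
    (e : Fin m ⊕ Fin (d - m) ≃ Fin d) :
    ∃ G : Matrix (Fin d) (Fin d) ℤ, G.det ≠ 0 ∧ ∀ j l, G l (e (Sum.inl j)) = b j l := by
  classical
  have hk : ∀ y : Fin m → ℚ, (Matrix.of fun (l : Fin d) (j : Fin m) => (b j l : ℚ)).mulVec y = 0 →
      y = 0 := by
    intro y hy
    refine ker_cast (F := ℚ) (fun l j => b j l) ?_ y (fun k => ?_)
    · intro y hy
      rw [Fintype.linearIndependent_iff] at hb
      funext j
      refine hb y ?_ j
      funext l
      rw [Finset.sum_apply, Pi.zero_apply, ← hy l]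
      exact Finset.sum_congr rfl fun j _ => by
        rw [Pi.smul_apply, smul_eq_mul, mul_comm]
    · exact congrFun hy k
  obtain ⟨s, hs⟩ := exists_minor _ hk
  have hsinj : Function.Injective s := by
    intro i j hij
    by_contra hne
    exact hs (Matrix.det_zero_of_row_eq hne (by
      funext a
      simp [hij]))
  have hmd : m ≤ d := by simpa using Fintype.card_le_of_injective s hsinj
  have hcard : ((Finset.univ : Finset (Fin d)) \ Finset.univ.image s).card = d - m := by
    rw [Finset.card_sdiff_of_subset (Finset.subset_univ _), Finset.card_image_of_injective _ hsinj]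
    simp
  set u : Fin (d - m) → Fin d := fun j => (((Finset.univ : Finset (Fin d)) \
    Finset.univ.image s).orderIsoOfFin hcard j : Fin d) with hu
  have huinj : Function.Injective u := by
    intro i j h
    exact (((Finset.univ : Finset (Fin d)) \ Finset.univ.image s).orderIsoOfFin hcard).injective
      (Subtype.ext h)
  have hus : ∀ j k, u j ≠ s k := by
    intro j k h
    have h1 := (((Finset.univ : Finset (Fin d)) \
      Finset.univ.image s).orderIsoOfFin hcard j).2
    rw [Finset.mem_sdiff] at h1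
    apply h1.2
    rw [Finset.mem_image]
    exact ⟨k, Finset.mem_univ _, h.symm⟩
  set G : Matrix (Fin d) (Fin d) ℤ := Matrix.of fun l j' =>
    Sum.elim (fun j => b j l) (fun j => if l = u j then 1 else 0) (e.symm j') with hG
  refine ⟨G, ?_, fun j l => by simp [hG]⟩
  intro h0
  obtain ⟨v, hv, hGv⟩ := Matrix.exists_mulVec_eq_zero_iff.2 h0
  have hexp : ∀ l, ∑ j, b j l * v (e (Sum.inl j)) +
      ∑ j, (if l = u j then 1 else 0) * v (e (Sum.inr j)) = 0 := by
    intro l
    have h1 := congrFun hGv l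
    simp only [Matrix.mulVec, dotProduct, Pi.zero_apply] at h1
    rw [← Equiv.sum_comp e, Fintype.sum_sum_type] at h1
    simpa [hG] using h1
  have h1 : ∀ j, v (e (Sum.inl j)) = 0 := by
    have h2 : (fun j => (v (e (Sum.inl j)) : ℚ)) = 0 := by
      apply Matrix.eq_zero_of_mulVec_eq_zero hs
      funext k
      have h3 := hexp (s k)
      have h4 : ∑ j, (if s k = u j then 1 else 0) * v (e (Sum.inr j)) = 0 :=
        Finset.sum_eq_zero fun j _ => by rw [if_neg (fun h => hus j k h.symm), zero_mul]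
      rw [h4, add_zero] at h3
      simp only [Matrix.mulVec, dotProduct, Matrix.submatrix_apply, Matrix.of_apply, id,
        Pi.zero_apply]
      exact_mod_cast h3
    intro j
    have := congrFun h2 j
    simpa using this
  have h2 : ∀ j, v (e (Sum.inr j)) = 0 := by
    intro j
    have h3 := hexp (u j)
    rw [Finset.sum_eq_zero (fun j' _ => by rw [h1, mul_zero]), zero_add,
      Finset.sum_eq_single j] at h3
    · simpa using h3
    · intro j' _ hj'
      rw [if_neg (fun h => hj' (huinj h).symm), zero_mul]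
    · intro h; exact absurd (Finset.mem_univ _) h
  apply hv
  funext l
  obtain ⟨x, rfl⟩ := e.surjective l
  rcases x with x | x
  · exact h1 x
  · exact h2 x

theorem norm_det_le {m : ℕ} (P : Matrix (Fin m) (Fin m) ℂ) (U : Fin m → ℝ)
    (h : ∀ k i, ‖P k i‖ ≤ U k) : ‖P.det‖ ≤ m.factorial * ∏ k, U k := by
  rw [Matrix.det_apply]
  refine (norm_sum_le _ _).trans ?_
  have h1 : ∀ σ : Equiv.Perm (Fin m), ‖Equiv.Perm.sign σ • ∏ i, P (σ i) i‖ ≤ ∏ k, U k := by
    intro σ
    have h2 : ‖Equiv.Perm.sign σ • ∏ i, P (σ i) i‖ = ‖∏ i, P (σ i) i‖ := by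
      rcases Int.units_eq_one_or (Equiv.Perm.sign σ) with h | h <;> rw [h] <;> simp
    rw [h2, norm_prod]
    calc ∏ i, ‖P (σ i) i‖ ≤ ∏ i, U (σ i) :=
          Finset.prod_le_prod (fun _ _ => norm_nonneg _) fun i _ => h _ _
      _ = ∏ k, U k := Equiv.prod_comp σ U
  calc ∑ σ : Equiv.Perm (Fin m), ‖Equiv.Perm.sign σ • ∏ i, P (σ i) i‖ ≤
      ∑ σ : Equiv.Perm (Fin m), ∏ k, U k := Finset.sum_le_sum fun σ _ => h1 σ
    _ = m.factorial * ∏ k, U k := by
        rw [Finset.sum_const, Finset.card_univ, Fintype.card_perm, Fintype.card_fin,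
          nsmul_eq_mul]

section small

variable {K : Type} [Field K] [NumberField K] [IsGalois ℚ K]

/-- the selections of rows with nonzero minor -/
noncomputable def sel {d m : ℕ} (N : Matrix (Fin d) (Fin m) (𝓞 K)) : Finset (Fin m → Fin d) := by
  classical exact Finset.univ.filter fun s => (N.submatrix s id).det ≠ 0

theorem mem_sel {d m : ℕ} (N : Matrix (Fin d) (Fin m) (𝓞 K)) (s : Fin m → Fin d) :
    s ∈ sel N ↔ (N.submatrix s id).det ≠ 0 := by
  classical
  unfold sel
  simp

/-- the products -/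
noncomputable def pr {d m : ℕ} (al : Fin d → 𝓞 K) (s : Fin m → Fin d) : 𝓞 K := ∏ k, al (s k)

theorem pow_lat {d : ℕ} (M : Matrix (Fin d) (Fin d) (𝓞 K)) (al : Fin d → 𝓞 K)
    (C : Matrix (Fin d) (Fin d) ℤ)
    (hMC : M * C.map (Int.castRingHom (𝓞 K)) = Matrix.diagonal al * M) (n : ℕ) :
    M * (C ^ n).map (Int.castRingHom (𝓞 K)) = Matrix.diagonal (fun i => al i ^ n) * M := by
  induction n with
  | zero => simp [Matrix.map_one]
  | succ n ih =>
    have h1 : (C ^ (n + 1)).map (Int.castRingHom (𝓞 K)) =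
        (C ^ n).map (Int.castRingHom (𝓞 K)) * C.map (Int.castRingHom (𝓞 K)) := by
      rw [pow_succ, Matrix.map_mul]
    rw [h1, ← mul_assoc, ih, mul_assoc, hMC, ← mul_assoc, Matrix.diagonal_mul_diagonal]
    congr 2
    funext i
    rw [pow_succ]

/-- the values of the forms at lattice points of the subspace -/
theorem dvd_det {d m : ℕ} (M : Matrix (Fin d) (Fin d) (𝓞 K)) (al : Fin d → 𝓞 K)
    (C : Matrix (Fin d) (Fin d) ℤ)
    (hMC : M * C.map (Int.castRingHom (𝓞 K)) = Matrix.diagonal al * M)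
    (b : Fin m → Fin d → ℤ) (g0 : ℤ) (n : ℕ) (z z' : Fin m → Fin d → ℤ)
    (hz : ∀ i, z i = (C ^ n).mulVec (z' i)) (a : Matrix (Fin m) (Fin m) ℤ)
    (ha : ∀ i l, g0 * z i l = ∑ j, a i j * b j l) (s : Fin m → Fin d) :
    pr al s ^ n ∣ ((Matrix.of fun l j => ∑ k, M l k * ((b j k : ℤ) : 𝓞 K)).submatrix s id).det *
      ((a.det : ℤ) : 𝓞 K) := by
  classical
  have hpow := pow_lat M al C hMC
  have hMz : ∀ i l, ∑ k, M l k * ((z i k : ℤ) : 𝓞 K) =
      al l ^ n * ∑ k, M l k * ((z' i k : ℤ) : 𝓞 K) := by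
    intro i l
    have h1 : (fun k => ((z i k : ℤ) : 𝓞 K)) =
        ((C ^ n).map (Int.castRingHom (𝓞 K))).mulVec (fun k => ((z' i k : ℤ) : 𝓞 K)) := by
      funext k
      rw [hz i]
      simp only [Matrix.mulVec, dotProduct, Matrix.map_apply]
      push_cast
      rfl
    have h2 : M.mulVec (fun k => ((z i k : ℤ) : 𝓞 K)) =
        (Matrix.diagonal (fun i => al i ^ n) * M).mulVec (fun k => ((z' i k : ℤ) : 𝓞 K)) := by
      rw [h1, Matrix.mulVec_mulVec, hpow]
    have h3 := congrFun h2 l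
    rw [← Matrix.mulVec_mulVec, Matrix.mulVec_diagonal] at h3
    exact h3
  set N : Matrix (Fin d) (Fin m) (𝓞 K) := Matrix.of fun l j => ∑ k, M l k * ((b j k : ℤ) : 𝓞 K)
    with hN
  have hprod : N.submatrix s id * (a.map (Int.castRingHom (𝓞 K))).transpose =
      Matrix.of fun k i => al (s k) ^ n * (((g0 : ℤ) : 𝓞 K) *
        ∑ k', M (s k) k' * ((z' i k' : ℤ) : 𝓞 K)) := by
    ext k i
    rw [Matrix.mul_apply, Matrix.of_apply]
    have h1 : ∑ j, N.submatrix s id k j * (a.map (Int.castRingHom (𝓞 K))).transpose j i =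
        ((g0 : ℤ) : 𝓞 K) * ∑ k', M (s k) k' * ((z i k' : ℤ) : 𝓞 K) := by
      simp only [hN, Matrix.submatrix_apply, Matrix.of_apply, id, Matrix.transpose_apply,
        Matrix.map_apply, eq_intCast, Finset.mul_sum, Finset.sum_mul]
      rw [Finset.sum_comm]
      refine Finset.sum_congr rfl fun k' _ => ?_
      have h2 : ((g0 : ℤ) : 𝓞 K) * ((z i k' : ℤ) : 𝓞 K) =
          ∑ j, ((a i j : ℤ) : 𝓞 K) * ((b j k' : ℤ) : 𝓞 K) := by
        have := congrArg (Int.cast : ℤ → 𝓞 K) (ha i k')
        push_cast at this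
        exact this
      calc ∑ j, M (s k) k' * ((b j k' : ℤ) : 𝓞 K) * ((a i j : ℤ) : 𝓞 K) =
          M (s k) k' * ∑ j, ((a i j : ℤ) : 𝓞 K) * ((b j k' : ℤ) : 𝓞 K) := by
            rw [Finset.mul_sum]
            exact Finset.sum_congr rfl fun j _ => by ring
        _ = ((g0 : ℤ) : 𝓞 K) * (M (s k) k' * ((z i k' : ℤ) : 𝓞 K)) := by
            rw [← h2]; ring
    rw [h1, hMz]
    ring
  have h1 := congrArg Matrix.det hprod
  rw [Matrix.det_mul, Matrix.det_transpose, Matrix.det_mul_column] at h1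
  have h2 : (a.map (Int.castRingHom (𝓞 K))).det = ((a.det : ℤ) : 𝓞 K) := by
    have := (Int.castRingHom (𝓞 K)).map_det a
    rw [eq_intCast] at this
    rw [this]
    rfl
  rw [h2] at h1
  have h3 : pr al s ^ n = ∏ i, al (s i) ^ n := by
    unfold pr
    rw [Finset.prod_pow]
  rw [h1, h3]
  exact Dvd.intro _ rfl

end small

end Pool.Agent.TH717.ST
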